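import Pool.Agent.Run7.h146.Met.I1

/-!
# DYN, DIN, DEL, GH (project MP_dd21b1_pr of helper146)

The deterministic dynamics in an abstract form: `c` a symmetric function (contact times),
`Sol c S D` : `D` gives removal times of the finite system `S`.
-/

set_option autoImplicit false

open MeasureTheory Filter Topology ENNReal

namespace Run7.h847.Met

/-! ### abstract removal times -/

/-- removal times for abstract contact times `c` -/
def Sol {α : Type*} (c : α → α → ℝ≥0∞) (S : Finset α) (D : α → ℝ≥0∞) : Prop :=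
  ∀ z ∈ S, D z = ⨅ (y : α) (_ : y ∈ S ∧ y ≠ z ∧ c z y ≤ D y), c z y

section abs

variable {α : Type*} {c : α → α → ℝ≥0∞} {S S' : Finset α} {D D' : α → ℝ≥0∞}

lemma Sol.le (h : Sol c S D) {z y : α} (hz : z ∈ S) (hy : y ∈ S) (hne : y ≠ z) (hc : c z y ≤ D y) :
    D z ≤ c z y := by
  rw [h z hz]
  exact iInf₂_le y ⟨hy, hne, hc⟩

lemma Sol.att (h : Sol c S D) {z : α} (hz : z ∈ S) (ht : D z ≠ ⊤) :
    ∃ y ∈ S, y ≠ z ∧ c z y ≤ D y ∧ D z = c z y := by
  classical
  by_cases hT : (S.filter fun y => y ≠ z ∧ c z y ≤ D y).Nonempty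
  · obtain ⟨y, hy, hmin⟩ := Finset.exists_min_image _ (c z) hT
    rw [Finset.mem_filter] at hy
    refine ⟨y, hy.1, hy.2.1, hy.2.2, le_antisymm (h.le hz hy.1 hy.2.1 hy.2.2) ?_⟩
    rw [h z hz]
    refine le_iInf₂ fun w hw => hmin w ?_
    rw [Finset.mem_filter]
    exact ⟨hw.1, hw.2⟩
  · exfalso
    apply ht
    rw [h z hz, iInf₂_eq_top]
    intro w hw
    exact absurd ⟨w, Finset.mem_filter.2 ⟨hw.1, hw.2⟩⟩ hT

lemma Sol.att' (h : Sol c S D) (hs : ∀ a b, c a b = c b a) {z : α} (hz : z ∈ S) (ht : D z ≠ ⊤) :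
    ∃ y ∈ S, y ≠ z ∧ c z y = D z ∧ D y = D z := by
  obtain ⟨y, hy, hne, h1, h2⟩ := h.att hz ht
  refine ⟨y, hy, hne, h2.symm, le_antisymm ?_ (h2 ▸ h1)⟩
  have h3 : c y z ≤ D z := by rw [hs y z, h2]
  exact (h.le hy hz hne.symm h3).trans h3

lemma Sol.mk' (h : ∀ z ∈ S, (∀ y ∈ S, y ≠ z → c z y ≤ D y → D z ≤ c z y) ∧
    (D z = ⊤ ∨ ∃ y ∈ S, y ≠ z ∧ c z y ≤ D y ∧ D z = c z y)) : Sol c S D := by
  intro z hz
  obtain ⟨h1, h2⟩ := h z hz
  apply le_antisymm
  · exact le_iInf₂ fun y hy => h1 y hy.1 hy.2.1 hy.2.2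
  · rcases h2 with h2 | ⟨y, hy, hne, h3, h4⟩
    · rw [h2]; exact le_top
    · rw [h4]
      exact iInf₂_le y ⟨hy, hne, h3⟩

/-- only the values on `S` matter -/
lemma Sol.congr (h : Sol c S D) (hD : ∀ z ∈ S, D z = D' z) : Sol c S D' := by
  apply Sol.mk'
  intro z hz
  constructor
  · intro y hy hne hc
    rw [← hD y hy] at hc
    rw [← hD z hz]
    exact h.le hz hy hne hc
  · by_cases ht : D z = ⊤
    · left; rw [← hD z hz]; exact ht
    · right
      obtain ⟨y, hy, hne, h1, h2⟩ := h.att hz ht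
      exact ⟨y, hy, hne, hD y hy ▸ h1, hD z hz ▸ h2⟩

/-- uniqueness -/
lemma Sol.uniq (hs : ∀ a b, c a b = c b a) (h : Sol c S D) (h' : Sol c S D') : ∀ z ∈ S, D z = D' z := by
  classical
  by_contra hcon
  push Not at hcon
  obtain ⟨z₀, hz₀, hne₀⟩ := hcon
  have hT : (S.filter fun z => D z ≠ D' z).Nonempty := ⟨z₀, Finset.mem_filter.2 ⟨hz₀, hne₀⟩⟩
  obtain ⟨z, hz, hmin⟩ := Finset.exists_min_image _ (fun z => min (D z) (D' z)) hT
  rw [Finset.mem_filter] at hz
  -- one direction, symmetric in `D`, `D'`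
  have key : ∀ E E' : α → ℝ≥0∞, Sol c S E → Sol c S E' →
      (∀ w ∈ S, E w ≠ E' w → min (E z) (E' z) ≤ min (E w) (E' w)) → ¬ E z < E' z := by
    intro E E' hE hE' hm hlt
    obtain ⟨y, hy, hne, h1, h2⟩ := hE.att' hs hz.1 hlt.ne_top
    by_cases h3 : c z y ≤ E' y
    · have h4 := hE'.le hz.1 hy hne h3
      rw [h1] at h4
      exact absurd hlt (not_lt.2 h4)
    · push Not at h3
      rw [h1] at h3
      have h5 : E y ≠ E' y := by rw [h2]; exact h3.ne'
      have h6 := hm y hy h5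
      have h7 : min (E z) (E' z) = E z := min_eq_left hlt.le
      rw [h7] at h6
      exact absurd (lt_of_le_of_lt (h6.trans (min_le_right _ _)) h3) (lt_irrefl _)
  have hm1 : ∀ w ∈ S, D w ≠ D' w → min (D z) (D' z) ≤ min (D w) (D' w) := fun w hw hne =>
    hmin w (Finset.mem_filter.2 ⟨hw, hne⟩)
  have k1 := key D D' h h' hm1
  have k2 := key D' D h' h (fun w hw hne => by
    rw [min_comm (D' z), min_comm (D' w)]
    exact hm1 w hw hne.symm)
  exact hz.2 (le_antisymm (not_lt.1 k2) (not_lt.1 k1))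

/-- existence -/
lemma Sol.exists (hs : ∀ a b, c a b = c b a) (S : Finset α) : ∃ D, Sol c S D := by
  classical
  induction S using Finset.strongInduction with
  | H S ih =>
    by_cases hP : ((S ×ˢ S).filter fun p => p.2 ≠ p.1).Nonempty
    · obtain ⟨p, hp, hmin⟩ := Finset.exists_min_image _ (fun p => c p.1 p.2) hP
      rw [Finset.mem_filter, Finset.mem_product] at hp
      set m := c p.1 p.2 with hm
      have hmin' : ∀ z ∈ S, ∀ y ∈ S, y ≠ z → m ≤ c z y := fun z hz y hy hne =>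
        hmin (z, y) (Finset.mem_filter.2 ⟨Finset.mem_product.2 ⟨hz, hy⟩, hne⟩)
      let K := S.filter fun z => ∃ y ∈ S, y ≠ z ∧ c z y = m
      have hK : ∀ z, z ∈ K ↔ z ∈ S ∧ ∃ y ∈ S, y ≠ z ∧ c z y = m := fun z => Finset.mem_filter
      have hKp : p.1 ∈ K := (hK _).2 ⟨hp.1.1, p.2, hp.1.2, hp.2, rfl⟩
      have hss : S \ K ⊂ S := by
        refine ⟨Finset.sdiff_subset, fun h => ?_⟩
        have := h hp.1.1
        rw [Finset.mem_sdiff] at this
        exact this.2 hKp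
      obtain ⟨D₁, h₁⟩ := ih _ hss
      refine ⟨fun z => if z ∈ K then m else D₁ z, Sol.mk' ?_⟩
      intro z hz
      by_cases hzK : z ∈ K
      · simp only [if_pos hzK]
        obtain ⟨-, y, hy, hne, hc⟩ := (hK z).1 hzK
        refine ⟨fun y hy hne _ => hmin' z hz y hy hne, Or.inr ⟨y, hy, hne, ?_, hc.symm⟩⟩
        have hyK : y ∈ K := (hK y).2 ⟨hy, z, hz, hne.symm, by rw [hs y z]; exact hc⟩
        rw [if_pos hyK, hc]
      · simp only [if_neg hzK]
        have hz1 : z ∈ S \ K := Finset.mem_sdiff.2 ⟨hz, hzK⟩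
        constructor
        · intro y hy hne hc
          by_cases hyK : y ∈ K
          · rw [if_pos hyK] at hc
            exact absurd ((hK z).2 ⟨hz, y, hy, hne, le_antisymm hc (hmin' z hz y hy hne)⟩) hzK
          · rw [if_neg hyK] at hc
            exact h₁.le hz1 (Finset.mem_sdiff.2 ⟨hy, hyK⟩) hne hc
        · by_cases ht : D₁ z = ⊤
          · exact Or.inl ht
          · right
            obtain ⟨y, hy, hne, h2, h3⟩ := h₁.att hz1 ht
            rw [Finset.mem_sdiff] at hy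
            exact ⟨y, hy.1, hne, by rw [if_neg hy.2]; exact h2, h3⟩
    · refine ⟨fun _ => ⊤, Sol.mk' fun z hz => ⟨fun y hy hne _ => ?_, Or.inl rfl⟩⟩
      exact absurd ⟨(z, y), Finset.mem_filter.2 ⟨Finset.mem_product.2 ⟨hz, hy⟩, hne⟩⟩ hP

/-- comparison of a system with the system without `y`: nothing changes before the removal of `y` -/
lemma Sol.comp (hs : ∀ a b, c a b = c b a) {y : α} (hS' : ∀ x, x ∈ S' ↔ x ∈ S ∧ x ≠ y)
    (h : Sol c S D) (h' : Sol c S' D') {x : α} (hx : x ∈ S') (hlt : D x < D y ∨ D' x < D y) :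
    D x = D' x := by
  classical
  by_contra hne₀
  have hT : (S'.filter fun x => (D x < D y ∨ D' x < D y) ∧ D x ≠ D' x).Nonempty :=
    ⟨x, Finset.mem_filter.2 ⟨hx, hlt, hne₀⟩⟩
  obtain ⟨z, hz, hmin⟩ := Finset.exists_min_image _ (fun z => min (D z) (D' z)) hT
  rw [Finset.mem_filter] at hz
  obtain ⟨hz1, hz2, hz3⟩ := hz
  have hzS : z ∈ S := ((hS' z).1 hz1).1
  have hmin' : ∀ w ∈ S', (D w < D y ∨ D' w < D y) → D w ≠ D' w → min (D z) (D' z) ≤ min (D w) (D' w) :=
    fun w hw h1 h2 => hmin w (Finset.mem_filter.2 ⟨hw, h1, h2⟩)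
  rcases lt_or_gt_of_ne hz3 with hl | hl
  · -- `D z < D' z`
    have hDy : D z < D y := by
      rcases hz2 with h1 | h1
      · exact h1
      · exact hl.trans h1
    obtain ⟨w, hw, hwne, h1, h2⟩ := h.att' hs hzS hl.ne_top
    have hwy : w ≠ y := by
      rintro rfl
      rw [h2] at hDy
      exact lt_irrefl _ hDy
    have hwS' : w ∈ S' := (hS' w).2 ⟨hw, hwy⟩
    by_cases h3 : c z w ≤ D' w
    · have h4 := h'.le hz1 hwS' hwne h3
      rw [h1] at h4
      exact absurd hl (not_lt.2 h4)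
    · push Not at h3
      rw [h1] at h3
      have h5 : D w ≠ D' w := by rw [h2]; exact h3.ne'
      have h6 := hmin' w hwS' (Or.inl (by rw [h2]; exact hDy)) h5
      rw [min_eq_left hl.le] at h6
      exact absurd (lt_of_le_of_lt (h6.trans (min_le_right _ _)) h3) (lt_irrefl _)
  · -- `D' z < D z`
    have hDy : D' z < D y := by
      rcases hz2 with h1 | h1
      · exact hl.trans h1
      · exact h1
    obtain ⟨w, hw, hwne, h1, h2⟩ := h'.att' hs hz1 hl.ne_top
    have hwS : w ∈ S := ((hS' w).1 hw).1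
    by_cases h3 : c z w ≤ D w
    · have h4 := h.le hzS hwS hwne h3
      rw [h1] at h4
      exact absurd hl (not_lt.2 h4)
    · push Not at h3
      rw [h1] at h3
      have h5 : D w ≠ D' w := by rw [h2]; exact h3.ne
      have h6 := hmin' w hw (Or.inr (by rw [h2]; exact hDy)) h5
      rw [min_eq_right hl.le] at h6
      exact absurd (lt_of_le_of_lt (h6.trans (min_le_left _ _)) h3) (lt_irrefl _)

/-- an added element `z` is removed at time `D z` exactly when it meets an element of the small system -/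
lemma Sol.ghost (hs : ∀ a b, c a b = c b a) {z : α} (hz : z ∈ S) (hS' : ∀ x, x ∈ S' ↔ x ∈ S ∧ x ≠ z)
    (h : Sol c S D) (h' : Sol c S' D') (τ : ℝ≥0∞) (hτ : τ ≠ ⊤) :
    τ < D z ↔ ∀ y ∈ S', ¬ (c z y ≤ τ ∧ c z y ≤ D' y) := by
  constructor
  · intro hlt y hy hcon
    have hyS := (hS' y).1 hy
    by_cases h1 : c z y ≤ D y
    · exact absurd ((h.le hz hyS.1 hyS.2 h1).trans hcon.1) (not_le.2 hlt)
    · push Not at h1
      have h2 : D y < D z := h1.trans (lt_of_le_of_lt hcon.1 hlt)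
      have h3 := Sol.comp hs hS' h h' hy (Or.inl h2)
      rw [h3] at h1
      exact absurd hcon.2 (not_le.2 h1)
  · intro hall
    by_contra hcon
    push Not at hcon
    obtain ⟨y, hy, hne, h1, h2⟩ := h.att' hs hz (lt_of_le_of_lt hcon (lt_top_iff_ne_top.2 hτ)).ne
    have hyS' : y ∈ S' := (hS' y).2 ⟨hy, hne⟩
    refine hall y hyS' ⟨by rw [h1]; exact hcon, ?_⟩
    by_contra h3
    push Not at h3
    rw [h1] at h3
    have h4 := Sol.comp hs hS' h h' hyS' (Or.inr h3)
    rw [← h4, h2] at h3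
    exact lt_irrefl _ h3

/-- transport under an injective map -/
lemma Sol.pull {β : Type*} {c' : β → β → ℝ≥0∞} {φ : α → β} (hφ : Function.Injective φ)
    (hc : ∀ a b, c' (φ a) (φ b) = c a b) {T : Finset β} (hT : ∀ w, w ∈ T ↔ ∃ y ∈ S, φ y = w)
    {E : β → ℝ≥0∞} (h : Sol c' T E) : Sol c S (fun y => E (φ y)) := by
  apply Sol.mk'
  intro z hz
  have hzT : φ z ∈ T := (hT _).2 ⟨z, hz, rfl⟩
  constructor
  · intro y hy hne h1
    have hyT : φ y ∈ T := (hT _).2 ⟨y, hy, rfl⟩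
    have h2 := h.le hzT hyT (fun e => hne (hφ e)) (by rw [hc]; exact h1)
    rw [hc] at h2
    exact h2
  · by_cases ht : E (φ z) = ⊤
    · exact Or.inl ht
    · right
      obtain ⟨w, hw, hne, h1, h2⟩ := h.att hzT ht
      obtain ⟨y, hy, rfl⟩ := (hT w).1 hw
      rw [hc] at h1 h2
      exact ⟨y, hy, fun e => hne (by rw [e]), h1, h2⟩

end abs

/-! ### the pieces -/

open Run7.h146.Met

open Classical in
lemma mem_del {α : Type*} {x y : α} {S : Finset α} : x ∈ del y S ↔ x ∈ S ∧ x ≠ y := by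
  unfold del
  rw [Finset.mem_erase]
  exact and_comm

open Classical in
lemma mem_ins {α : Type*} {x y : α} {S : Finset α} : x ∈ ins y S ↔ x = y ∨ x ∈ S := by
  unfold ins
  rw [Finset.mem_insert]

lemma ct_symm {d : ℕ} (ε : ℝ) (z y : X d) : ct ε z y = ct ε y z := by
  unfold ct
  simp only [norm_sub_rev]

lemma isD_iff {d : ℕ} (ε : ℝ) (S : Finset (X d)) (D : X d → ℝ≥0∞) : IsD ε S D ↔ Sol (ct ε) S D := Iff.rfl

theorem t_DYN : S_DYN := by
  classical
  intro d ε S
  obtain ⟨D₀, h₀⟩ := Sol.exists (c := ct ε) (ct_symm ε) S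
  have hex : ∃ D, IsD ε S D ∧ ∀ z, z ∉ S → D z = 0 := by
    refine ⟨fun z => if z ∈ S then D₀ z else 0, ?_, fun z hz => if_neg hz⟩
    exact Sol.congr h₀ fun z hz => (if_pos hz).symm
  have hdt : dt ε S = hex.choose := by
    unfold dt
    rw [dif_pos hex]
  have hsp := hex.choose_spec
  rw [← hdt] at hsp
  exact ⟨hsp.1, hsp.2, fun D hD z hz => Sol.uniq (ct_symm ε) hD hsp.1 z hz⟩

theorem t_DIN : S_CT → S_DYN → S_DIN := by
  intro hCT hDYN d ε hε O a F z
  have hct := (hCT d ε hε).2.2.2.2.2.2 O a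
  have hinj : Function.Injective (fun y : X d => ((a + O y.1, O y.2) : X d)) := by
    intro x y hxy
    simp only [Prod.mk.injEq] at hxy
    exact Prod.ext (O.injective (add_left_cancel hxy.1)) (O.injective hxy.2)
  obtain ⟨h1, h2, h3⟩ := hDYN d ε F
  obtain ⟨g1, g2, g3⟩ := hDYN d ε (F.image fun y : X d => ((a + O y.1, O y.2) : X d))
  by_cases hz : z ∈ F
  · refine h3 (fun y => dt ε (F.image fun y : X d => ((a + O y.1, O y.2) : X d)) (a + O y.1, O y.2)) ?_ z hz
    exact Sol.pull (c := ct ε) (c' := ct ε) (φ := fun y : X d => ((a + O y.1, O y.2) : X d)) hinj hct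
      (fun w => Finset.mem_image) g1
  · rw [h2 z hz]
    apply g2
    intro hmem
    obtain ⟨y, hy, hyz⟩ := Finset.mem_image.1 hmem
    exact hz (hinj hyz ▸ hy)

theorem t_DEL : S_CT → S_DYN → S_DEL := by
  intro _ hDYN d ε hε S y t ht hy hlt x hx hxy
  have h1 := (hDYN d ε S).1
  have h2 := (hDYN d ε (del y S)).1
  have hS' : ∀ x, x ∈ del y S ↔ x ∈ S ∧ x ≠ y := by
    intro x
    exact mem_del
  have hx' : x ∈ del y S := (hS' x).2 ⟨hx, hxy⟩
  constructor
  · intro h3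
    by_contra h4
    push Not at h4
    have h5 := Sol.comp (ct_symm ε) hS' h1 h2 hx' (Or.inr (lt_of_le_of_lt h4 hlt))
    rw [h5] at h3
    exact absurd h3 (not_lt.2 h4)
  · intro h3
    by_contra h4
    push Not at h4
    have h5 := Sol.comp (ct_symm ε) hS' h1 h2 hx' (Or.inl (lt_of_le_of_lt h4 hlt))
    rw [← h5] at h3
    exact absurd h3 (not_lt.2 h4)

theorem t_GH : S_CT → S_DYN → S_GH := by
  intro _ hDYN d ε hε S z t ht hz
  have h1 := (hDYN d ε (ins z S)).1
  have h2 := (hDYN d ε S).1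
  have hzi : z ∈ ins z S := mem_ins.2 (Or.inl rfl)
  have hS' : ∀ x, x ∈ S ↔ x ∈ ins z S ∧ x ≠ z := by
    intro x
    rw [mem_ins]
    constructor
    · intro h; exact ⟨Or.inr h, fun e => hz (e ▸ h)⟩
    · rintro ⟨h | h, hne⟩
      · exact absurd h hne
      · exact h
  exact Sol.ghost (ct_symm ε) hzi hS' h1 h2 (ENNReal.ofReal t) ENNReal.ofReal_ne_top

end Run7.h847.Met
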