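import Pool.Agent.Run7.h146.Met.I2

/-!
# MEAS, SING (project MP_dd21b1_pr of helper146)

Measurability tools for functionals of a finite configuration and a parameter.
-/

set_option autoImplicit false

open MeasureTheory Filter Topology ENNReal

namespace Run7.h847.Met

open Run7.h146.Met

/-! ### tools -/

open Classical in
/-- measurability of an event depending on a parameter and a finite configuration -/
def TS {β α : Type*} [MeasurableSpace β] [MeasurableSpace α] (P : β → Finset α → Prop) : Prop :=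
  ∀ n : ℕ, MeasurableSet {p : β × (Fin n → α) | P p.1 (Finset.univ.image p.2)}

section tools

open Classical in
lemma mset_iff {α : Type*} [MeasurableSpace α] (A : Set (Finset α)) :
    MeasurableSet A ↔ ∀ n : ℕ, MeasurableSet {y : Fin n → α | Finset.univ.image y ∈ A} := by
  show @MeasurableSet _ (⨅ n : ℕ, MeasurableSpace.map (fun y : Fin n → α => Finset.univ.image y)
    inferInstance) A ↔ _
  rw [MeasurableSpace.measurableSet_iInf]
  exact Iff.rfl

variable {β γ : Type*} [MeasurableSpace β] [MeasurableSpace γ] {α : Type*} [MeasurableSpace α]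

lemma tmc {h : β → Finset α → ℝ≥0∞} (hh : TM h) {g : γ → β} (hg : Measurable g) :
    TM (fun c F => h (g c) F) := fun n =>
  (hh n).comp ((hg.comp measurable_fst).prodMk measurable_snd)

lemma TS.comp {P : β → Finset α → Prop} (hh : TS P) {g : γ → β} (hg : Measurable g) :
    TS (fun c F => P (g c) F) := fun n =>
  ((hg.comp measurable_fst).prodMk measurable_snd) (hh n)

lemma tmk {f : β → ℝ≥0∞} (hf : Measurable f) : TM (fun b (_ : Finset α) => f b) := fun _ =>
  hf.comp measurable_fst

lemma TS.cst {P : β → Prop} (hP : MeasurableSet {b | P b}) : TS (fun b (_ : Finset α) => P b) :=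
  fun _ => measurable_fst hP

lemma TS.and {P Q : β → Finset α → Prop} (hP : TS P) (hQ : TS Q) : TS (fun b F => P b F ∧ Q b F) :=
  fun n => (hP n).inter (hQ n)

lemma TS.lt {f g : β → Finset α → ℝ≥0∞} (hf : TM f) (hg : TM g) : TS (fun b F => f b F < g b F) :=
  fun n => measurableSet_lt (hf n) (hg n)

lemma TS.le {f g : β → Finset α → ℝ≥0∞} (hf : TM f) (hg : TM g) : TS (fun b F => f b F ≤ g b F) :=
  fun n => measurableSet_le (hf n) (hg n)

lemma TS.ite {P : β → Finset α → Prop} (hP : TS P) {f g : β → Finset α → ℝ≥0∞} (hf : TM f) (hg : TM g)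
    [∀ b F, Decidable (P b F)] : TM (fun b F => if P b F then f b F else g b F) :=
  fun n => Measurable.ite (hP n) (hf n) (hg n)

lemma TS.one {P : β → Finset α → Prop} (hP : TS P) [∀ b F, Decidable (P b F)] :
    TM (fun b F => if P b F then (1 : ℝ≥0∞) else 0) :=
  fun n => Measurable.ite (hP n) measurable_const measurable_const

lemma TS.eqz {f : β → Finset α → ℝ≥0∞} (hf : TM f) : TS (fun b F => f b F = 0) :=
  fun n => (hf n) (measurableSet_singleton 0)

lemma TS.of_mset {A : Set (Finset α)} (hA : MeasurableSet A) : TS (fun (_ : β) F => F ∈ A) :=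
  fun n => measurable_snd ((mset_iff A).1 hA n)

lemma TS.sec {P : β → Finset α → Prop} (hP : TS P) (b : β) : MeasurableSet {F | P b F} :=
  (mset_iff _).2 fun n => measurable_prodMk_left (hP n)

open Classical in
lemma meas_iff {δ : Type*} [MeasurableSpace δ] (f : Finset α → δ) : Measurable f ↔
    ∀ n : ℕ, Measurable fun y : Fin n → α => f (Finset.univ.image y) := by
  constructor
  · intro h n s hs
    exact (mset_iff _).1 (h hs) n
  · intro h s hs
    exact (mset_iff _).2 fun n => h n hs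

lemma tms {h : β → Finset α → ℝ≥0∞} (hh : TM h) (b : β) : Measurable (h b) :=
  (meas_iff _).2 fun n => (hh n).comp measurable_prodMk_left

lemma TS.of_tm {P : β → Finset α → Prop} [∀ b F, Decidable (P b F)]
    (h : TM (fun b F => if P b F then (1 : ℝ≥0∞) else 0)) : TS P := by
  intro n
  have h1 := (h n) (measurableSet_singleton 1)
  convert h1 using 1
  ext p
  simp only [Set.mem_ofPred_eq, Set.mem_preimage, Set.mem_singleton_iff]
  constructor
  · intro hp
    rw [if_pos hp]
  · intro hp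
    by_contra hc
    rw [if_neg hc] at hp
    exact zero_ne_one hp

open Classical in
lemma mset_mem [MeasurableSingletonClass α] (z : α) : MeasurableSet {F : Finset α | z ∈ F} := by
  rw [mset_iff]
  intro n
  have h1 : {y : Fin n → α | Finset.univ.image y ∈ {F : Finset α | z ∈ F}} =
      ⋃ i, (fun y : Fin n → α => y i) ⁻¹' {z} := by
    ext y
    rw [Set.mem_iUnion]
    show z ∈ Finset.univ.image y ↔ _
    rw [Finset.mem_image]
    constructor
    · rintro ⟨i, -, hi⟩
      exact ⟨i, hi⟩
    · rintro ⟨i, hi⟩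
      exact ⟨i, Finset.mem_univ _, hi⟩
  rw [h1]
  exact MeasurableSet.iUnion fun i => (measurable_pi_apply i) (measurableSet_singleton z)

open Classical in
lemma mset_all {P : α → Prop} (hP : MeasurableSet {x | P x}) :
    MeasurableSet {F : Finset α | ∀ y ∈ F, P y} := by
  rw [mset_iff]
  intro n
  have h1 : {y : Fin n → α | Finset.univ.image y ∈ {F : Finset α | ∀ y ∈ F, P y}} =
      ⋂ i, (fun y : Fin n → α => y i) ⁻¹' {x | P x} := by
    ext y
    rw [Set.mem_iInter]
    show (∀ w ∈ Finset.univ.image y, P w) ↔ _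
    constructor
    · intro h i
      exact h _ (Finset.mem_image_of_mem _ (Finset.mem_univ i))
    · intro h w hw
      rw [Finset.mem_image] at hw
      obtain ⟨i, -, rfl⟩ := hw
      exact h i
  rw [h1]
  exact MeasurableSet.iInter fun i => (measurable_pi_apply i) hP

open Classical in
lemma meas_image {δ : Type*} [MeasurableSpace δ] {φ : α → δ} (hφ : Measurable φ)
    {G : Finset α → Finset δ} (hG : ∀ F w, w ∈ G F ↔ ∃ y ∈ F, φ y = w) : Measurable G := by
  intro A hA
  rw [mset_iff]
  intro n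
  have hφ' : Measurable (fun (y : Fin n → α) (i : Fin n) => φ (y i)) :=
    measurable_pi_lambda _ fun i => hφ.comp (measurable_pi_apply i)
  have h1 := hφ' ((mset_iff A).1 hA n)
  convert h1 using 1
  ext y
  have h2 : G (Finset.univ.image y) = Finset.univ.image (fun i : Fin n => φ (y i)) := by
    ext w
    rw [hG, Finset.mem_image]
    constructor
    · rintro ⟨a, ha, rfl⟩
      rw [Finset.mem_image] at ha
      obtain ⟨i, -, rfl⟩ := ha
      exact ⟨i, Finset.mem_univ _, rfl⟩
    · rintro ⟨i, -, rfl⟩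
      exact ⟨_, Finset.mem_image_of_mem _ (Finset.mem_univ i), rfl⟩
  show G (Finset.univ.image y) ∈ A ↔ Finset.univ.image (fun i : Fin n => φ (y i)) ∈ A
  rw [h2]

end tools

section tools2

variable {β : Type} [MeasurableSpace β] {d : ℕ}

open Classical in
lemma tmf (hPO2 : S_PO2) {h : β → Finset (X d) → ℝ≥0∞} (hh : TM h) {C : Set (β × X d)}
    (hC : MeasurableSet C) {G : β → Finset (X d) → Finset (X d)}
    (hG : ∀ b F x, x ∈ G b F ↔ x ∈ F ∧ (b, x) ∈ C) : TM (fun b F => h b (G b F)) := by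
  have h1 := (hPO2 d β h hh).2.2.1 C hC
  have h2 : (fun b F => h b (G b F)) = fun b F => h b (F.filter fun x => (b, x) ∈ C) := by
    funext b F
    congr 1
    ext x
    rw [hG, Finset.mem_filter]
  rw [h2]
  exact h1

lemma tmi (hPO2 : S_PO2) {h : β → Finset (X d) → ℝ≥0∞} (hh : TM h) :
    TM (fun (p : β × X d) F => h p.1 (ins p.2 F)) := (hPO2 d β h hh).1

lemma tmd (hPO2 : S_PO2) {h : β → Finset (X d) → ℝ≥0∞} (hh : TM h) :
    TM (fun (p : β × X d) F => h p.1 (del p.2 F)) := (hPO2 d β h hh).2.1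

open Classical in
lemma TS.flt (hPO2 : S_PO2) {P : β → Finset (X d) → Prop} (hP : TS P) {C : Set (β × X d)}
    (hC : MeasurableSet C) {G : β → Finset (X d) → Finset (X d)}
    (hG : ∀ b F x, x ∈ G b F ↔ x ∈ F ∧ (b, x) ∈ C) : TS (fun b F => P b (G b F)) :=
  TS.of_tm (tmf hPO2 (h := fun b F => if P b F then (1 : ℝ≥0∞) else 0) hP.one hC hG)

open Classical in
lemma TS.ins (hPO2 : S_PO2) {P : β → Finset (X d) → Prop} (hP : TS P) :
    TS (fun (p : β × X d) F => P p.1 (ins p.2 F)) :=
  TS.of_tm (tmi hPO2 (h := fun b F => if P b F then (1 : ℝ≥0∞) else 0) hP.one)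

open Classical in
/-- cardinality of a subset given by a measurable condition -/
lemma card_meas (hPO3 : S_PO3) {P : X d → Finset (X d) → Prop} (hP : TS P)
    {G : Finset (X d) → Finset (X d)} (hG : ∀ F x, x ∈ G F ↔ x ∈ F ∧ P x F) :
    Measurable (fun F => ((G F).card : ℝ≥0∞)) := by
  have h1 : TM (fun (p : Unit × X d) F => if P p.2 F then (1 : ℝ≥0∞) else 0) :=
    (hP.comp (g := fun p : Unit × X d => p.2) measurable_snd).one
  have h2 := tms (hPO3 d Unit _ h1) ()
  have h3 : (fun F => ((G F).card : ℝ≥0∞)) = fun F : Finset (X d) =>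
      ∑ x ∈ F, if P x F then (1 : ℝ≥0∞) else 0 := by
    funext F
    have h3 : G F = F.filter fun x => P x F := by
      ext x
      rw [hG, Finset.mem_filter]
    rw [h3, Finset.sum_boole]
  rw [h3]
  exact h2

lemma card_mset (hPO3 : S_PO3) {P : X d → Finset (X d) → Prop} (hP : TS P)
    {G : Finset (X d) → Finset (X d)} (hG : ∀ F x, x ∈ G F ↔ x ∈ F ∧ P x F) (m : ℕ) :
    MeasurableSet {F | m ≤ (G F).card} := by
  have h1 := measurableSet_le (measurable_const (a := (m : ℝ≥0∞))) (card_meas hPO3 hP hG)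
  have h2 : {F | m ≤ (G F).card} = {F | (m : ℝ≥0∞) ≤ ((G F).card : ℝ≥0∞)} := by
    ext F
    show m ≤ (G F).card ↔ (m : ℝ≥0∞) ≤ ((G F).card : ℝ≥0∞)
    rw [Nat.cast_le]
  rw [h2]
  exact h1

open Classical in
/-- the measure of an event with a parameter -/
lemma prob_meas (hPO2 : S_PO2) {P : β → Finset (X d) → Prop} (hP : TS P) (ν : Measure (X d))
    [IsFiniteMeasure ν] : Measurable (fun b => poi ν {F | P b F}) := by
  have h1 := (hPO2 d β (fun b F => if P b F then (1 : ℝ≥0∞) else 0) hP.one).2.2.2.1 ν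
  have h2 : (fun b => poi ν {F | P b F}) =
      fun b => ∫⁻ F, (if P b F then (1 : ℝ≥0∞) else 0) ∂(poi ν) := by
    funext b
    rw [← lintegral_indicator_one (hP.sec b)]
    apply lintegral_congr
    intro F
    by_cases hF : P b F
    · rw [if_pos hF, Set.indicator_of_mem (show F ∈ {F | P b F} from hF), Pi.one_apply]
    · rw [if_neg hF, Set.indicator_of_notMem (show F ∉ {F | P b F} from hF)]
  rw [h2]
  exact h1

/-! ### the single facts -/

open Classical in
lemma m_res (hPO2 : S_PO2) (B : Set (V d)) (hB : MeasurableSet B) : Measurable (res B) := by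
  intro A hA
  have hC : MeasurableSet {p : Unit × X d | p.2.1 ∈ B} :=
    (measurable_fst.comp measurable_snd) hB
  have h1 := TS.flt hPO2 (TS.of_mset (β := Unit) hA) hC (G := fun _ F => res B F)
    (fun b F x => by
      unfold res
      rw [Finset.mem_filter]
      exact Iff.rfl)
  exact h1.sec ()

lemma m_sh (x : V d) : Measurable (sh x) := by
  refine meas_image (φ := fun y : X d => ((y.1 - x, y.2) : X d))
    ((measurable_fst.sub_const x).prodMk measurable_snd) (fun F w => ?_)
  unfold sh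
  rw [Finset.mem_image]

lemma s_alive (hPO2 : S_PO2) {ε : ℝ} (DM : TM (fun (z : X d) F => dt ε F z)) :
    TS (fun (q : X d × ℝ) F => alive ε q.1 q.2 F) := by
  have h1 : TM (fun (p : X d × X d) F => dt ε (ins p.2 F) p.1) := tmi hPO2 DM
  have h2 := tmc h1 (g := fun q : X d × ℝ => (q.1, q.1)) (measurable_fst.prodMk measurable_fst)
  exact TS.lt (tmk (ENNReal.measurable_ofReal.comp measurable_snd)) h2

lemma s_al2 (hPO2 : S_PO2) {ε : ℝ} (DM : TM (fun (z : X d) F => dt ε F z)) :
    TS (fun (q : (X d × ℝ) × (X d × ℝ)) F => al2 ε q.1.1 q.1.2 q.2.1 q.2.2 F) := by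
  have h1 : TM (fun (p : X d × X d) F => dt ε (ins p.2 F) p.1) := tmi hPO2 DM
  have h2 : TM (fun (p : (X d × X d) × X d) F => dt ε (ins p.1.2 (ins p.2 F)) p.1.1) := tmi hPO2 h1
  have h3 := tmc h2 (g := fun q : (X d × ℝ) × (X d × ℝ) => ((q.1.1, q.1.1), q.2.1))
    (((measurable_fst.fst).prodMk (measurable_fst.fst)).prodMk measurable_snd.fst)
  have h4 := tmc h2 (g := fun q : (X d × ℝ) × (X d × ℝ) => ((q.2.1, q.1.1), q.2.1))
    (((measurable_snd.fst).prodMk (measurable_fst.fst)).prodMk measurable_snd.fst)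
  exact TS.and (TS.lt (tmk (ENNReal.measurable_ofReal.comp measurable_fst.snd)) h3)
    (TS.lt (tmk (ENNReal.measurable_ofReal.comp measurable_snd.snd)) h4)

open Classical in
lemma s_loc (hPO2 : S_PO2) {ε : ℝ}
    (EN : ∀ k : ℕ, TM (fun (p : X d × ℝ≥0∞) F => nch ε k p.1 p.2 F)) (κ r : ℝ) :
    TS (fun (z : X d) F => Loc ε κ r z F) := by
  have hC : MeasurableSet {p : (X d × ℝ≥0∞) × X d | dist p.2.1 p.1.1.1 < r} :=
    measurableSet_lt ((measurable_snd.fst).dist (measurable_fst.fst.fst)) measurable_const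
  have h1 := tmf hPO2 (EN ⌊r / (8 * ε)⌋₊) hC (G := fun p F => res (Metric.ball p.1.1 r) F)
    (fun b F x => by
      unfold res
      rw [Finset.mem_filter]
      exact Iff.rfl)
  have h2 := tmc h1 (g := fun z : X d => (z, ENNReal.ofReal (κ * r + 1)))
    (measurable_id.prodMk measurable_const)
  exact TS.eqz h2

lemma m_pos (t : ℝ) : Measurable (fun z : X d => pos z t) := by
  unfold pos
  exact measurable_fst.add (measurable_snd.const_smul t)

open Classical in
lemma m_Un (hPO3 : S_PO3) {ε : ℝ} (DM : TM (fun (z : X d) F => dt ε F z)) (t : ℝ) :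
    Measurable (Un (d := d) ε t) := by
  have h0 : TS (fun (p : Unit × X d) F => ENNReal.ofReal t < dt ε F p.2 ∧ ‖pos p.2 t‖ ≤ ε) :=
    TS.and (TS.lt (tmk measurable_const) (tmc DM (g := fun p : Unit × X d => p.2) measurable_snd))
      (TS.cst (measurableSet_le (((m_pos t).comp measurable_snd).norm) measurable_const))
  have h1 : TM (fun (p : Unit × X d) F => if ENNReal.ofReal t < dt ε F p.2 ∧ ‖pos p.2 t‖ ≤ ε then
      (1 : ℝ≥0∞) else 0) := h0.one
  have h2 := tms (hPO3 d Unit _ h1) ()
  have h3 : Un (d := d) ε t = fun F => ∑ z ∈ F, if ENNReal.ofReal t < dt ε F z ∧ ‖pos z t‖ ≤ ε then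
      (1 : ℝ≥0∞) else 0 := by
    funext F
    unfold Un
    exact Finset.sum_congr rfl fun z _ => if_congr Iff.rfl rfl rfl
  rw [h3]
  exact h2

open Classical in
lemma m_occ (hPO3 : S_PO3) (hCT : S_CT) {ε : ℝ} (hε : 0 < ε) (DM : TM (fun (z : X d) F => dt ε F z))
    (N : ℝ) (m : ℕ) : MeasurableSet {F : Finset (X d) | m ≤ Occ ε N F} := by
  by_cases hN : 0 ≤ N
  · have hC2 := hCT d (ε / 2) (by linarith)
    obtain ⟨o, ho⟩ : ∃ o : X d, o = ((0, 0) : X d) := ⟨_, rfl⟩
    have hp0 : ∀ t : ℝ, pos o t = 0 := by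
      intro t
      rw [ho]
      unfold pos
      simp
    have hτ : Measurable (fun z : X d => ct (ε / 2) z o) :=
      hC2.1.comp (f := fun z : X d => (z, o)) (measurable_id.prodMk measurable_const)
    have h0 : TS (fun (z : X d) F => ct (ε / 2) z o ≤ ENNReal.ofReal N ∧ ct (ε / 2) z o < dt ε F z) :=
      TS.and (TS.cst (measurableSet_le hτ measurable_const)) (TS.lt (tmk hτ) DM)
    have hval : ∀ (z : X d) (t : ℝ), ‖pos z t - pos o t‖ ≤ 2 * (ε / 2) ↔ ‖pos z t‖ ≤ ε := by
      intro z t
      rw [hp0, sub_zero, mul_div_cancel₀ _ (two_ne_zero)]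
    unfold Occ
    refine card_mset hPO3 h0 (fun F z => ?_) m
    rw [Finset.mem_filter]
    apply and_congr_right
    intro _
    constructor
    · rintro ⟨t, ht0, htN, h1, h2⟩
      have h3 := hC2.2.2.2.1 z o t ht0 ((hval z t).2 h2)
      exact ⟨h3.trans (ENNReal.ofReal_le_ofReal htN), lt_of_le_of_lt h3 h1⟩
    · rintro ⟨h1, h2⟩
      obtain ⟨t, ht0, h3, h4, -⟩ := hC2.2.2.1 z o (ne_top_of_le_ne_top ENNReal.ofReal_ne_top h1)
      rw [h3] at h1 h2
      exact ⟨t, ht0, (ENNReal.ofReal_le_ofReal_iff hN).1 h1, h2, (hval z t).1 h4⟩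
  · have h1 : ∀ F : Finset (X d), Occ ε N F = 0 := by
      intro F
      unfold Occ
      rw [Finset.card_eq_zero, Finset.filter_eq_empty_iff]
      rintro z _ ⟨t, h1, h2, -⟩
      exact hN (h1.trans h2)
    have h2 : {F : Finset (X d) | m ≤ Occ ε N F} = {F : Finset (X d) | m ≤ 0} := by
      ext F
      show m ≤ Occ ε N F ↔ m ≤ 0
      rw [h1]
    rw [h2]
    exact MeasurableSet.const _

open Classical in
lemma m_hits (hPO3 : S_PO3) {ε : ℝ} (CT : Measurable (fun p : X d × X d => ct ε p.1 p.2))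
    (DM : TM (fun (z : X d) F => dt ε F z)) (z : X d) (t : ℝ) (m : ℕ) :
    MeasurableSet {F : Finset (X d) | m ≤ (hits ε z t F).card} := by
  have hcz : Measurable (fun y : X d => ct ε z y) :=
    CT.comp (f := fun y : X d => (z, y)) (measurable_const.prodMk measurable_id)
  have h0 : TS (fun (y : X d) F => ct ε z y ≤ ENNReal.ofReal t ∧ ct ε z y ≤ dt ε F y) :=
    TS.and (TS.cst (measurableSet_le hcz measurable_const)) (TS.le (tmk hcz) DM)
  refine card_mset hPO3 h0 (fun F y => ?_) m
  unfold hits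
  rw [Finset.mem_filter]

open Classical in
lemma m_cardB (hPO3 : S_PO3) (B : Set (X d)) (hB : MeasurableSet B) :
    Measurable fun F : Finset (X d) => (F.filter fun y => y ∈ B).card := by
  have h1 := card_meas hPO3 (P := fun y _ => y ∈ B) (TS.cst hB)
    (G := fun F => F.filter fun y => y ∈ B) (fun F x => by rw [Finset.mem_filter])
  refine measurable_to_countable' fun m => ?_
  have h2 := h1 (measurableSet_singleton (m : ℝ≥0∞))
  have h3 : (fun F : Finset (X d) => (F.filter fun y => y ∈ B).card) ⁻¹' {m} =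
      (fun F : Finset (X d) => ((F.filter fun y => y ∈ B).card : ℝ≥0∞)) ⁻¹' {(m : ℝ≥0∞)} := by
    ext F
    show (F.filter fun y => y ∈ B).card = m ↔ ((F.filter fun y => y ∈ B).card : ℝ≥0∞) = (m : ℝ≥0∞)
    rw [Nat.cast_inj]
  rw [h3]
  exact h2

end tools2

open Classical in
theorem t_MEAS : S_PO1 → S_PO2 → S_PO3 → S_CT → S_DYN → S_DM → S_MB → S_EN → S_MEAS := by
  intro _ hPO2 hPO3 hCT _ hDM hMB hEN d ε hd hε
  have DM := hDM d ε hε
  have EN := (hEN d ε hd hε).1
  have CT := (hCT d ε hε).1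
  have s4 := s_alive hPO2 DM
  have s5 := s_al2 hPO2 DM
  have s6 : ∀ t : ℝ, TS (fun (z : X d) F => alive ε z t F) := fun t =>
    s4.comp (g := fun z : X d => (z, t)) (measurable_id.prodMk measurable_const)
  have s7 : ∀ t t' : ℝ, TS (fun (q : X d × X d) F => al2 ε q.1 t q.2 t' F) := fun t t' =>
    s5.comp (g := fun q : X d × X d => ((q.1, t), (q.2, t')))
      ((measurable_fst.prodMk measurable_const).prodMk (measurable_snd.prodMk measurable_const))
  have hfin : ∀ B : Set (V d), MeasurableSet B → volume B ≠ ⊤ → IsFiniteMeasure (mB B) :=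
    fun B hB hB' => ((hMB d hd).2.2.2 B hB hB').1
  have hres : ∀ (R : ℝ) (A : Set (Finset (X d))), MeasurableSet A →
      MeasurableSet {F : Finset (X d) | res (Metric.ball (0 : V d) R) F ∈ A} := fun R A hA =>
    m_res hPO2 (Metric.ball 0 R) Metric.isOpen_ball.measurableSet hA
  refine ⟨m_res hPO2, m_sh, mset_mem, s4.one, s5.one, fun z t => (s6 t).sec z,
    fun z y t t' => (s7 t t').sec (z, y), fun κ r => (s_loc hPO2 EN κ r).one,
    fun z κ r => (s_loc hPO2 EN κ r).sec z, m_Un hPO3 DM, ?_, m_occ hPO3 hCT hε DM,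
    m_hits hPO3 CT DM, ?_, m_cardB hPO3, ?_, ?_⟩
  · intro j
    unfold Vj
    exact Finset.measurable_sum _ fun n _ => m_Un hPO3 DM n
  · exact mset_all (P := fun y : X d => ‖y.2‖ = 1) (measurable_snd.norm (measurableSet_singleton 1))
  · intro t B R A hB hB' hA
    have := hfin B hB hB'
    exact prob_meas hPO2 (TS.and (TS.of_mset (hres R A hA)) (s6 t)) (mB B)
  · intro t t' B R A hB hB' hA
    have := hfin B hB hB'
    exact prob_meas hPO2 (TS.and (TS.of_mset (hres R A hA)) (s7 t t')) (mB B)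

end Run7.h847.Met
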