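import Pool.Agent.Run7.h847.Met.MEAS

/-!
# SING (project MP_dd21b1_pr of helper146): the Mecke formula for one existing meteor
-/

set_option autoImplicit false

open MeasureTheory Filter Topology ENNReal

namespace Run7.h847.Met

open Run7.h146.Met

open Classical in
lemma mem_insC {α : Type*} {x y : α} {S : Finset α} : x ∈ ins y S ↔ x = y ∨ x ∈ S := by
  unfold ins
  rw [Finset.mem_insert]

open Classical in
lemma mem_res {d : ℕ} {B : Set (V d)} {F : Finset (X d)} {z : X d} : z ∈ res B F ↔ z ∈ F ∧ z.1 ∈ B := by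
  unfold res
  rw [Finset.mem_filter]

/-- adding a point outside of `B` does not change the restriction to `B` -/
lemma res_ins {d : ℕ} {B : Set (V d)} {F : Finset (X d)} {z : X d} (hz : z.1 ∉ B) :
    res B (ins z F) = res B F := by
  ext w
  rw [mem_res, mem_res, mem_insC]
  constructor
  · rintro ⟨h | h, h2⟩
    · exact absurd (h ▸ h2) hz
    · exact ⟨h, h2⟩
  · rintro ⟨h, h2⟩
    exact ⟨Or.inr h, h2⟩

open Classical in
/-- integral of a constant on an event -/
lemma lint_const {d : ℕ} (ν : Measure (X d)) {P : Finset (X d) → Prop} (hP : MeasurableSet {F | P F})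
    (c : ℝ≥0∞) : ∫⁻ F, (if P F then c else 0) ∂(poi ν) = c * poi ν {F | P F} := by
  rw [← lintegral_indicator_const hP c]
  apply lintegral_congr
  intro F
  by_cases hF : P F
  · rw [if_pos hF, Set.indicator_of_mem (show F ∈ {F | P F} from hF)]
  · rw [if_neg hF, Set.indicator_of_notMem (show F ∉ {F | P F} from hF)]

open Classical in
/-- integral over an event -/
lemma lint_set {d : ℕ} (ν : Measure (X d)) {P : Finset (X d) → Prop} (hP : MeasurableSet {F | P F})
    (G : Finset (X d) → ℝ≥0∞) : ∫⁻ F in {F | P F}, G F ∂(poi ν) = ∫⁻ F, (if P F then G F else 0) ∂(poi ν) := by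
  rw [← lintegral_indicator hP]
  apply lintegral_congr
  intro F
  by_cases hF : P F
  · rw [if_pos hF, Set.indicator_of_mem (show F ∈ {F | P F} from hF)]
  · rw [if_neg hF, Set.indicator_of_notMem (show F ∉ {F | P F} from hF)]

open Classical in
theorem t_SING : S_PO1 → S_PO2 → S_PO3 → S_MK → S_MB → S_DM → S_MEAS → S_SING := by
  intro _ hPO2 _ hMK hMB hDM hMEAS d ε hd hε t R B A f hB hB' hA hf hf0
  have DM := hDM d ε hε
  have hM := hMEAS d ε hd hε
  have hMB' := (hMB d hd).2.2.2 B hB hB'
  have := hMB'.1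
  have := hMB'.2.1
  have hres : MeasurableSet {F : Finset (X d) | res (Metric.ball (0 : V d) R) F ∈ A} :=
    m_res hPO2 (Metric.ball 0 R) Metric.isOpen_ball.measurableSet hA
  rw [lint_set (mB B) hres]
  -- the functional
  have hTS : TS (fun (z : X d) F => res (Metric.ball (0 : V d) R) F ∈ A ∧ ENNReal.ofReal t < dt ε F z) :=
    TS.and (TS.of_mset hres) (TS.lt (tmk measurable_const) DM)
  have hTM : TM (fun (z : X d) F => if res (Metric.ball (0 : V d) R) F ∈ A ∧ ENNReal.ofReal t < dt ε F z
      then f z else 0) := hTS.ite (tmk hf) (tmk measurable_const)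
  have h1 := (hMK d (mB B)).1 _ hTM
  have h2 : ∀ F : Finset (X d), (if res (Metric.ball (0 : V d) R) F ∈ A then
      (∑ z ∈ F, if ENNReal.ofReal t < dt ε F z then f z else 0) else 0) =
      ∑ z ∈ F, if res (Metric.ball (0 : V d) R) F ∈ A ∧ ENNReal.ofReal t < dt ε F z then f z else 0 := by
    intro F
    by_cases hF : res (Metric.ball (0 : V d) R) F ∈ A
    · rw [if_pos hF]
      refine Finset.sum_congr rfl fun z _ => ?_
      by_cases h3 : ENNReal.ofReal t < dt ε F z
      · rw [if_pos h3, if_pos ⟨hF, h3⟩]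
      · rw [if_neg h3, if_neg fun h => h3 h.2]
    · rw [if_neg hF]
      symm
      exact Finset.sum_eq_zero fun z _ => if_neg fun h => hF h.1
  rw [lintegral_congr h2, h1]
  apply lintegral_congr
  intro z
  have hSa : MeasurableSet {F : Finset (X d) | res (Metric.ball (0 : V d) R) F ∈ A ∧ alive ε z t F} :=
    hres.inter (hM.2.2.2.2.2.1 z t)
  by_cases hz : z.1 ∈ Metric.ball (0 : V d) R
  · rw [hf0 z hz, zero_mul]
    simp only [ite_self, lintegral_zero]
  · rw [← lint_const (mB B) hSa]
    apply lintegral_congr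
    intro F
    rw [res_ins hz]
    by_cases h : res (Metric.ball (0 : V d) R) F ∈ A ∧ alive ε z t F
    · rw [if_pos h]
      exact if_pos h
    · rw [if_neg h]
      exact if_neg h

end Run7.h847.Met
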